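import Mathlib

namespace Pool.Agent.MP_a8995d_an

/-- A bounded operator `S` is topologically multiply recurrent: for every nonempty open `U` and
every `N ≥ 1` there is `k ≥ 1` with `U ∩ S^{-k} U ∩ ⋯ ∩ S^{-N k} U` nonempty. -/
def MultiplyRecurrent {X : Type} [NormedAddCommGroup X] [NormedSpace ℂ X] (S : X →L[ℂ] X) : Prop :=
  ∀ U : Set X, IsOpen U → U.Nonempty → ∀ N : ℕ, 1 ≤ N →
    ∃ k : ℕ, 1 ≤ k ∧ (⋂ j ∈ Finset.range (N + 1), (S ^ (j * k)) ⁻¹' U).Nonempty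

/-- The operator `I + T`. -/
def idAdd {X : Type} [NormedAddCommGroup X] [NormedSpace ℂ X] (T : X →L[ℂ] X) : X →L[ℂ] X :=
  ContinuousLinearMap.id ℂ X + T

/-- `T` acts on the sequence `e` as the backward shift with weights `w`:
`T e_0 = 0` and `T e_{n+1} = w_{n+1} e_n`. -/
def IsBackwardShift {X : Type} [NormedAddCommGroup X] [NormedSpace ℂ X] (e : ℕ → X) (w : ℕ → ℝ)
    (T : X →L[ℂ] X) : Prop :=
  T (e 0) = 0 ∧ ∀ n : ℕ, T (e (n + 1)) = (w (n + 1) : ℂ) • e n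

/-- The complex Hilbert space `ℓ²(ℕ)`. -/
abbrev L2 : Type := lp (fun _ : ℕ => ℂ) 2

/-- The canonical basis of `ℓ²(ℕ)`. -/
noncomputable def basisVec (n : ℕ) : L2 := lp.single 2 n 1

end Pool.Agent.MP_a8995d_an
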