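import Pool.Agent.MP_a8995d_an.Defs

namespace Pool.Agent.MP_a8995d_an

open Polynomial Filter Topology Finset

section

variable {E : Type} [NormedAddCommGroup E] [NormedSpace ℂ E]

/-- the vector attached to a function and a point -/
noncomputable def V (f : ℕ → E) (M : ℕ) (g : ℂ → ℂ) (t : ℂ) : E :=
  ∑ r ∈ range M, ((fwdDiff 1)^[r] g t) • f r

lemma V_step (T : E →L[ℂ] E) (f : ℕ → E) (h0 : T (f 0) = 0) (hs : ∀ r, T (f (r + 1)) = f r)
    (M : ℕ) (g : ℂ → ℂ) (hg : (fwdDiff 1)^[M] g = 0) (t : ℂ) :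
    (1 + T) (V f M g t) = V f M g (t + 1) := by
  have h1 : T (V f M g t) = ∑ r ∈ range M, ((fwdDiff 1)^[r + 1] g t) • f r := by
    rcases M with _ | M
    · simp [V]
    · rw [V, map_sum, sum_range_succ', sum_range_succ, hg]
      simp [h0, hs]
  rw [add_apply, one_apply_eq_self, h1, V, V, ← sum_add_distrib]
  refine sum_congr rfl fun r _ => ?_
  rw [← add_smul, Function.iterate_succ_apply', fwdDiff]
  congr 1
  ring

lemma V_pow (T : E →L[ℂ] E) (f : ℕ → E) (h0 : T (f 0) = 0) (hs : ∀ r, T (f (r + 1)) = f r)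
    (M : ℕ) (g : ℂ → ℂ) (hg : (fwdDiff 1)^[M] g = 0) (m : ℕ) :
    ((1 + T) ^ m) (V f M g 0) = V f M g m := by
  induction m with
  | zero => simp
  | succ m ih =>
    rw [pow_succ', mul_apply_eq_comp, ih, V_step T f h0 hs M g hg]
    simp

end

/-- Newton polynomial with prescribed differences at zero -/
noncomputable def newton (a : ℕ → ℂ) (n : ℕ) : ℂ[X] :=
  ∑ s ∈ range (n + 1), C (a s / s.factorial) * descPochhammer ℂ s

lemma newton_natDegree (a : ℕ → ℂ) (n : ℕ) : (newton a n).natDegree ≤ n := by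
  refine natDegree_sum_le_of_forall_le _ _ fun s hs => ?_
  refine (natDegree_C_mul_le _ _).trans ?_
  rw [descPochhammer_natDegree]
  exact Nat.lt_succ_iff.mp (mem_range.mp hs)

lemma newton_eval (a : ℕ → ℂ) (n h : ℕ) :
    (newton a n).eval (h : ℂ) = ∑ s ∈ range (n + 1), a s * (h.choose s : ℂ) := by
  rw [newton, eval_finsetSum]
  refine sum_congr rfl fun s _ => ?_
  rw [eval_mul, eval_C, descPochhammer_eval_eq_descFactorial,
    Nat.descFactorial_eq_factorial_mul_choose]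
  have : (s.factorial : ℂ) ≠ 0 := by exact_mod_cast s.factorial_ne_zero
  push_cast
  field_simp

lemma newton_diff (a : ℕ → ℂ) (n r : ℕ) :
    (fwdDiff 1)^[r] (newton a n).eval 0 = if r < n + 1 then a r else 0 := by
  rw [fwdDiff_iter_eq_sum_shift]
  have h1 : ∀ s, ∑ k ∈ range (r + 1), ((-1 : ℤ) ^ (r - k) * r.choose k) • (k.choose s : ℂ) =
      if r = s then 1 else 0 := by
    intro s
    have := fwdDiff_iter_choose_zero s r
    rw [fwdDiff_iter_eq_sum_shift] at this
    have h2 := congrArg (Int.cast : ℤ → ℂ) this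
    push_cast at h2
    simpa using h2
  simp only [zero_add, nsmul_eq_mul, mul_one, newton_eval, smul_sum]
  rw [sum_comm]
  simp only [← mul_smul_comm, ← mul_sum, h1]
  simp

/-- Lagrange type polynomial vanishing to order `n + 1` at the other nodes -/
noncomputable def lag (N n j : ℕ) : ℂ[X] :=
  ∏ i ∈ (range (N + 1)).erase j, (C (1 / ((j : ℂ) - i)) * (X - C (i : ℂ))) ^ (n + 1)

lemma lag_natDegree (N n j : ℕ) : (lag N n j).natDegree ≤ (N + 1) * (n + 1) := by
  refine (natDegree_prod_le _ _).trans ?_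
  refine (sum_le_card_nsmul _ _ (n + 1) fun i _ => ?_).trans ?_
  · refine natDegree_pow_le.trans ?_
    have : (C (1 / ((j : ℂ) - i)) * (X - C (i : ℂ))).natDegree ≤ 1 :=
      (natDegree_C_mul_le _ _).trans (natDegree_X_sub_C_le _)
    nlinarith
  · rw [smul_eq_mul]
    gcongr
    exact card_erase_le.trans (by simp)

lemma lag_self (N n j : ℕ) : (lag N n j).eval (j : ℂ) = 1 := by
  rw [lag, eval_prod]
  refine prod_eq_one fun i hi => ?_
  have : (j : ℂ) - i ≠ 0 := sub_ne_zero.mpr (by exact_mod_cast (ne_of_mem_erase hi).symm)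
  simp only [eval_pow, eval_mul, eval_C, eval_sub, eval_X]
  rw [one_div_mul_cancel this, one_pow]

lemma lag_other (N n j i : ℕ) (hi : i ∈ (range (N + 1)).erase j) :
    ∃ Q : ℂ[X], ∀ s, (lag N n j).eval s = (s - i) ^ (n + 1) * Q.eval s := by
  refine ⟨C ((1 / ((j : ℂ) - i)) ^ (n + 1)) * ∏ i' ∈ ((range (N + 1)).erase j).erase i,
    (C (1 / ((j : ℂ) - i')) * (X - C (i' : ℂ))) ^ (n + 1), fun s => ?_⟩
  rw [lag, ← mul_prod_erase _ _ hi]
  simp only [eval_pow, eval_mul, eval_C, eval_sub, eval_X]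
  rw [mul_pow]
  generalize eval s _ = A
  ring

/-- the interpolating polynomial -/
noncomputable def interp (q : ℂ[X]) (N n k : ℕ) : ℂ[X] :=
  ∑ j ∈ range (N + 1), q.comp (X - C ((j : ℂ) * k)) * (lag N n j).comp (C (1 / (k : ℂ)) * X)

lemma interp_natDegree (q : ℂ[X]) (N n k : ℕ) (hq : q.natDegree ≤ n) :
    (interp q N n k).natDegree ≤ n + (N + 1) * (n + 1) := by
  refine natDegree_sum_le_of_forall_le _ _ fun j _ => natDegree_mul_le.trans (add_le_add ?_ ?_)
  · refine natDegree_comp_le.trans ?_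
    have := natDegree_X_sub_C_le ((j : ℂ) * k)
    nlinarith
  · refine natDegree_comp_le.trans ?_
    have h1 : (C (1 / (k : ℂ)) * X).natDegree ≤ 1 := (natDegree_C_mul_le _ _).trans natDegree_X_le
    have h2 := lag_natDegree N n j
    nlinarith

lemma inv_tendsto : Tendsto (fun k : ℕ => 1 / (k : ℂ)) atTop (𝓝 0) :=
  tendsto_one_div_atTop_nhds_zero_nat

lemma poly_small (q : ℂ[X]) (n : ℕ) (hq : q.natDegree ≤ n) (c h : ℂ) :
    Tendsto (fun k : ℕ => q.eval (c * k + h) * (1 / (k : ℂ)) ^ (n + 1)) atTop (𝓝 0) := by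
  have h1 : Tendsto (fun k : ℕ => ∑ s ∈ range (n + 1),
      q.coeff s * (c + h * (1 / (k : ℂ))) ^ s * (1 / (k : ℂ)) ^ (n + 1 - s)) atTop
      (𝓝 (∑ s ∈ range (n + 1), q.coeff s * (c + h * 0) ^ s * 0 ^ (n + 1 - s))) :=
    tendsto_finsetSum _ fun s _ =>
      ((((inv_tendsto.const_mul h).const_add c).pow s).const_mul _).mul (inv_tendsto.pow _)
  have h2 : ∑ s ∈ range (n + 1), q.coeff s * (c + h * 0) ^ s * (0 : ℂ) ^ (n + 1 - s) = 0 :=
    sum_eq_zero fun s hs => by
      rw [zero_pow (by have := mem_range.mp hs; omega), mul_zero]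
  rw [h2] at h1
  refine h1.congr' ?_
  filter_upwards [eventually_ge_atTop 1] with k hk
  have hk0 : (k : ℂ) ≠ 0 := by exact_mod_cast (show k ≠ 0 by omega)
  rw [eval_eq_sum_range' (Nat.lt_succ_of_le hq), sum_mul]
  refine sum_congr rfl fun s hs => ?_
  have e : (1 / (k : ℂ)) ^ (n + 1) = (1 / (k : ℂ)) ^ s * (1 / (k : ℂ)) ^ (n + 1 - s) := by
    rw [← pow_add]; congr 1; have := mem_range.mp hs; omega
  have e2 : c + h * (1 / (k : ℂ)) = (c * k + h) * (1 / (k : ℂ)) := by field_simp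
  rw [e, e2, mul_pow]
  ring

lemma interp_tendsto (q : ℂ[X]) (N n : ℕ) (hq : q.natDegree ≤ n) (i : ℕ) (hi : i < N + 1)
    (h : ℂ) : Tendsto (fun k : ℕ => (interp q N n k).eval (((i * k : ℕ) : ℂ) + h)) atTop
      (𝓝 (q.eval h)) := by
  have hs : Tendsto (fun k : ℕ => (i : ℂ) + h * (1 / (k : ℂ))) atTop (𝓝 i) := by
    simpa using (inv_tendsto.const_mul h).const_add (i : ℂ)
  have h1 : Tendsto (fun k : ℕ => ∑ j ∈ range (N + 1),
      q.eval (((i : ℂ) - j) * k + h) * (lag N n j).eval ((i : ℂ) + h * (1 / (k : ℂ)))) atTop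
      (𝓝 (∑ j ∈ range (N + 1), if j = i then q.eval h else 0)) := by
    refine tendsto_finsetSum _ fun j _ => ?_
    split_ifs with hj
    · subst hj
      have := (((lag N n j).continuous.tendsto _).comp hs).const_mul (q.eval h)
      simpa [lag_self] using this
    · obtain ⟨Q, hQ⟩ := lag_other N n j i (mem_erase.mpr ⟨Ne.symm hj, mem_range.mpr hi⟩)
      have := ((poly_small q n hq ((i : ℂ) - j) h).mul_const (h ^ (n + 1))).mul
        ((Q.continuous.tendsto _).comp hs)
      simp only [zero_mul] at this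
      refine this.congr fun k => ?_
      simp only [hQ, Function.comp]
      ring
  rw [sum_ite_eq' (range (N + 1)) i, if_pos (mem_range.mpr hi)] at h1
  refine h1.congr' ?_
  filter_upwards [eventually_ge_atTop 1] with k hk
  have hk0 : (k : ℂ) ≠ 0 := by exact_mod_cast (show k ≠ 0 by omega)
  rw [interp, eval_finsetSum]
  refine sum_congr rfl fun j _ => ?_
  simp only [eval_mul, eval_comp, eval_sub, eval_X, eval_C]
  congr 2
  · push_cast; ring
  · push_cast; field_simp

theorem approx {E : Type} [NormedAddCommGroup E] [NormedSpace ℂ E] (T : E →L[ℂ] E) (f : ℕ → E)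
    (h0 : T (f 0) = 0) (hs : ∀ r, T (f (r + 1)) = f r) (a : ℕ → ℂ) (n N : ℕ) :
    ∃ x : ℕ → E, ∀ i < N + 1, Tendsto (fun k => ((1 + T) ^ (i * k)) (x k)) atTop
      (𝓝 (∑ r ∈ range (n + 1), a r • f r)) := by
  let q := newton a n
  have hq : q.natDegree ≤ n := newton_natDegree a n
  let M := n + (N + 1) * (n + 1) + 1
  refine ⟨fun k => V f M (interp q N n k).eval 0, fun i hi => ?_⟩
  have hz : ∀ k, (fwdDiff 1)^[M] (interp q N n k).eval = 0 := fun k =>
    Polynomial.fwdDiff_iter_eq_zero_of_degree_lt (Nat.lt_succ_of_le (interp_natDegree q N n k hq))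
  simp only [V_pow T f h0 hs M _ (hz _)]
  have e : ∑ r ∈ range (n + 1), a r • f r = V f M q.eval 0 := by
    simp only [V, q, newton_diff, ite_smul, zero_smul]
    rw [← sum_filter]
    congr 1
    ext r
    simp only [mem_range, mem_filter, M]
    omega
  rw [e]
  refine tendsto_finsetSum _ fun r _ => Tendsto.smul_const ?_ _
  simp only [fwdDiff_iter_eq_sum_shift]
  refine tendsto_finsetSum _ fun l _ => Tendsto.const_smul ?_ _
  simpa using interp_tendsto q N n hq i hi (l • 1)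

theorem main (w : ℕ → ℝ) (hw : ∀ n, 1 ≤ n → 0 < w n)
    (T : lp (fun _ : ℕ => ℂ) 2 →L[ℂ] lp (fun _ : ℕ => ℂ) 2)
    (h0 : T (lp.single 2 0 1) = 0)
    (hs : ∀ n, T (lp.single 2 (n + 1) 1) = (w (n + 1) : ℂ) • lp.single 2 n 1) :
    MultiplyRecurrent (1 + T) := by
  intro U hU ⟨u, hu⟩ N _
  let W : ℕ → ℂ := fun r => ∏ i ∈ range r, (w (i + 1) : ℂ)
  have hW : ∀ r, W r ≠ 0 := fun r => prod_ne_zero_iff.mpr fun i _ => by
    exact_mod_cast (hw (i + 1) (by omega)).ne'
  let f : ℕ → lp (fun _ : ℕ => ℂ) 2 := fun r => (W r)⁻¹ • lp.single 2 r 1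
  have hf0 : T (f 0) = 0 := by simp [f, h0]
  have hfs : ∀ r, T (f (r + 1)) = f r := by
    intro r
    have h1 : (w (r + 1) : ℂ) ≠ 0 := by exact_mod_cast (hw (r + 1) (by omega)).ne'
    have h2 := hW r
    simp only [f, map_smul, hs, smul_smul, W, prod_range_succ] at h2 ⊢
    congr 1
    field_simp
  have h1 := (lp.hasSum_single (p := 2) (by simp) u).tendsto_sum_nat
  obtain ⟨n, hn⟩ := ((h1.comp (tendsto_add_atTop_nat 1)).eventually (hU.mem_nhds hu)).exists
  obtain ⟨x, hx⟩ := approx T f hf0 hfs (fun r => W r * u r) n N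
  have e : ∑ r ∈ range (n + 1), (W r * u r) • f r = ∑ r ∈ range (n + 1), lp.single 2 r (u r) := by
    refine sum_congr rfl fun r _ => ?_
    have h2 := hW r
    simp only [f, smul_smul]
    rw [← lp.single_smul]
    congr 1
    simp only [smul_eq_mul]
    field_simp
  rw [e] at hx
  have h2 : ∀ᶠ k in atTop, ∀ i ∈ range (N + 1), ((1 + T) ^ (i * k)) (x k) ∈ U :=
    (eventually_all_finset _).mpr fun i hi => (hx i (mem_range.mp hi)).eventually (hU.mem_nhds hn)
  obtain ⟨k, hk1, hk2⟩ := ((eventually_ge_atTop 1).and h2).exists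
  exact ⟨k, hk1, x k, Set.mem_iInter₂.mpr hk2⟩

end Pool.Agent.MP_a8995d_an
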